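import Mathlib
import Pool.Agent.H17.BinPart

set_option autoImplicit false

namespace Pool.Agent.Results.MP_4e7634_nt.Exists

noncomputable def bin (n : ℕ) : ℕ :=
  Nat.card {p : n.Partition // ∀ i ∈ p.parts, ∃ e : ℕ, i = 2 ^ e}

def ext (w : ℕ → ℕ) (c : ℕ) (m : ℤ) : ℕ := if m < 0 then c else w m.toNat

open Pool.Agent.H17.BinPart in
theorem result : ∃ (p q : ℕ) (u : Fin p → ℕ) (v : Fin q → ℕ) (c k : ℕ) (w : ℕ → ℕ) (a b : ℕ),
    (∀ i, 1 ≤ u i) ∧ (∀ j, 1 ≤ v j) ∧ (∀ n, 1 ≤ w n) ∧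
    (∀ n : ℕ, k ≤ n → w n = ∑ i, ext w c ((n : ℤ) - ext w c ((n : ℤ) - u i)) +
      ∑ j, ext w c ((n : ℤ) - v j)) ∧
    1 ≤ a ∧ ∀ n : ℕ, w (a * n + b) = bin n := by
  refine ⟨1, 1, fun _ => 1, fun _ => 10, 0, 160, w, 5, 4, fun _ => le_rfl, fun _ => by norm_num,
    w_pos, fun n hn => ?_, by norm_num, fun n => by rw [w4, bin, b_eq]⟩
  have h1 : ext w 0 ((n : ℤ) - (1 : ℕ)) = w (n - 1) := by
    rw [ext, if_neg (by omega)]; congr 1; omega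
  have h2 : ext w 0 ((n : ℤ) - (10 : ℕ)) = w (n - 10) := by
    rw [ext, if_neg (by omega)]; congr 1; omega
  rw [Fin.sum_univ_one, Fin.sum_univ_one, h1, h2, w_rec n hn]
  congr 1
  rw [ext]
  split_ifs with h3 h4 h4
  · rfl
  · omega
  · omega
  · congr 1; omega

end Pool.Agent.Results.MP_4e7634_nt.Exists
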